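import Pool.Agent.Lib.H66S.F1

/-!
# MP_58a5fb_an, Q1: no simple dense canal, and `J_c` is decomposable, if `c` has a mother hedgehog

`f_c z = z ^ 2 + c`, `K_c` the filled Julia set, `J_c` its boundary, `U_∞ = ℂ ∖ K_c`.  Let the critical point `0` be in
`J_c` and let `z₁` be a fixed point in the interior of `K_c`; so `c` is in the boundary of the main cardioid and `z₁` is the
centre of the Siegel disc.  Let `H` be a compact connected set with `f_c (H) ⊆ H`, `f_c` injective on `H` and `0 ∈ f_c (H)`.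
Then for every prime end `t` of `U_∞` the principal continuum `P(t)` is a proper subset of `J_c`; and `J_c` is the union of two
proper subcontinua.
-/

set_option autoImplicit false

namespace Pool.Agent.Results.MP_58a5fb_an.HedgehogDecomposable

open Set Filter Topology

/-- The quadratic polynomial `z ↦ z ^ 2 + c`. -/
def quad (c z : ℂ) : ℂ := z ^ 2 + c

/-- The filled Julia set: the points with bounded orbit. -/
def filledJulia (c : ℂ) : Set ℂ := {z | ∃ M : ℝ, ∀ n : ℕ, ‖(quad c)^[n] z‖ ≤ M}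

/-- The Julia set: the boundary of the filled Julia set. -/
def julia (c : ℂ) : Set ℂ := frontier (filledJulia c)

/-- `φ` is a Riemann map of the basin of infinity: a conformal isomorphism from `{w | 1 < ‖w‖}` onto the complement of the
filled Julia set, with `φ (∞) = ∞`. -/
structure IsRiemannMap (c : ℂ) (φ : ℂ → ℂ) : Prop where
  holo : DifferentiableOn ℂ φ {w | 1 < ‖w‖}
  inv : ∃ ψ : ℂ → ℂ, DifferentiableOn ℂ ψ (filledJulia c)ᶜ ∧ ∀ w : ℂ, 1 < ‖w‖ → ψ (φ w) = w
  img : φ '' {w | 1 < ‖w‖} = (filledJulia c)ᶜ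
  infty : Tendsto φ (Bornology.cobounded ℂ) (Bornology.cobounded ℂ)

/-- The principal continuum of the prime end `t`, `‖t‖ = 1`: the limit points of `φ` along the radius ending at `t`. -/
def principal (φ : ℂ → ℂ) (t : ℂ) : Set ℂ := {z | MapClusterPt z (𝓝[>] (1 : ℝ)) fun r : ℝ => φ (r * t)}

theorem result (c z₁ : ℂ) (H : Set ℂ) (hcrit : (0 : ℂ) ∈ julia c) (hfix : quad c z₁ = z₁)
    (hint : z₁ ∈ interior (filledJulia c)) (hcpt : IsCompact H) (hconn : IsConnected H)
    (hmaps : MapsTo (quad c) H H) (hinj : InjOn (quad c) H) (h0 : (0 : ℂ) ∈ quad c '' H)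
    (φ : ℂ → ℂ) (hφ : IsRiemannMap c φ) :
    (∀ t : ℂ, ‖t‖ = 1 → principal φ t ⊂ julia c) ∧
      ∃ A B : Set ℂ, (IsCompact A ∧ IsConnected A ∧ A ⊂ julia c) ∧
        (IsCompact B ∧ IsConnected B ∧ B ⊂ julia c) ∧ A ∪ B = julia c :=
  H66S.f1_main (c := c) (H := H) (z₁ := z₁) hcrit hfix hint hcpt hconn.isPreconnected hmaps hinj h0
    (φ := φ) ⟨hφ.holo, hφ.inv, hφ.img, hφ.infty⟩

end Pool.Agent.Results.MP_58a5fb_an.HedgehogDecomposable
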